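import Pool.Agent.V11142.SidDefs

/-!
# Sidorenko exponents of `r`-partite `r`-graphs of bounded degree are linear in the number of edges
-/

set_option autoImplicit false

namespace Pool.Agent.Results.MP_30cdc8_co.LinearBound

open Pool.Agent.V11142.SidDefs
open scoped ENNReal

/-- **Linear bounds on Sidorenko exponents.**  For every `r ≥ 2` there is a function `f_r` such that
every `r`-partite `r`-graph `F` of maximum degree at most `Δ` has Sidorenko exponent at most
`f_r(Δ) e(F)`. -/
theorem result : ∀ r : ℕ, 2 ≤ r → ∃ f : ℕ → ℕ, ∀ (Δ : ℕ) (U : Type) [Fintype U] [DecidableEq U]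
    (F : Finset (Finset U)), IsRGraph r F → IsPartite r F → MaxDegLe F Δ →
    sidorenkoExponent r F ≤ ((f Δ * F.card : ℕ) : ℝ≥0∞) := by
  intro r hr
  choose f hf using fun Δ => sidorenkoExponent_le r hr Δ
  exact ⟨f, fun Δ U _ _ F _ hp hd => hf Δ U F hp hd⟩

end Pool.Agent.Results.MP_30cdc8_co.LinearBound
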